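import Pool.Agent.R905.WM.Weil

/-!
# The `p`-adic monodromy-weight conjecture and smooth affine cubic hypersurfaces

`K` is a field (for the problem: a finite extension of `ℚ_p` with residue field of `q` elements), `E` an
algebraically closed field of characteristic zero (an algebraic closure of `P_0`) and `Γ` the Weil group
of `K` with its degree `v`. For a separated scheme `X` of finite type over `K`, `T.H X n w` is
`D_pst(gr^W_w H^n_c(X, ℚ_p))`, with scalars extended to `E`, where `W` is the (geometric) weight
filtration on the `p`-adic etale cohomology with compact supports of `X` over an algebraic closure of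
`K` (a de Rham representation); `g` in `Γ` acts by the linearized action `g ∘ φ ^ n(g)`. Since `gr^W`
and `D_pst` are exact, the property `MixedWM` of `X` satisfies two-out-of-three for a closed subscheme
and its complement (five lemma); so it is enough to know it for smooth affine cubic hypersurfaces.
-/

set_option autoImplicit false

open AlgebraicGeometry Pool.Agent.R904.CU Pool.Agent.R905.WM

namespace Pool.Agent.Results.MP_6451f1_ag.CubicHypersurfaces

/-- Let `S` be a class of schemes such as the smooth proper `K`-schemes. The following are equivalent:
(1) the monodromy-weight conjecture for the `p`-adic cohomology of all `X` in `S`;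
(2) for all separated schemes `X` of finite type over `K`, its analogue for all
`D_pst(gr^W_w H^n_c(X, ℚ_p))`;
(3) the same for the smooth hypersurfaces `X` of degree at most three in affine spaces over `K`. -/
theorem result (K : Type) [Field K] (E : Type) [Field E] [CharZero E] [IsAlgClosed E] (Γ : Type)
    (v : Γ → ℤ) (q : ℕ) (hq : 2 ≤ q) (T : WeilCohomology K E Γ) (hT : T.IsCohomology q v)
    (S : SchProp K) (hS : T.Pure S) (hM : Models S) :
    [∀ X f, SepFinType K X f → S X f → T.WM q v X f,
     ∀ X f, SepFinType K X f → T.MixedWM q v X f,
     ∀ (σ : Type) [Fintype σ] (F : MvPolynomial σ K), IsSmoothCubic F →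
       T.MixedWM q v _ (hyp F)].TFAE :=
  T.main hq hT hS hM

end Pool.Agent.Results.MP_6451f1_ag.CubicHypersurfaces
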