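import Pool.Agent.R942.WR.GoodDefs
import Pool.Agent.R942.WR.Crystal

/-!
# MP_6451f1_ag: wrong Frobenius eigenvalues and the non-simple part
-/

set_option autoImplicit false

open Module

universe u

namespace Pool.Agent.Results.MP_6451f1_ag.DefectBound

open Pool.Agent.Y143 Pool.Agent.R942.WS Pool.Agent.R942.WQ Pool.Agent.R942.WR

/-- **The defect of the `p`-adic monodromy-weight conjecture and the non-simple characters.** Let `K`
be a complete discretely valued field of characteristic zero with finite residue field with `p ^ h`
elements, and `X` a smooth proper variety over `K`, purely of dimension `n`, with the spaces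
`H^m_{pst, p}(X)` over `P₀` and the linear action `A` of the Weil group. Let `B` be an alteration
`X' → X` with a projective strictly semistable model over the ring of integers of a finite extension
`K'` of `K` with residue degree `f` (alterations of this kind exist by the theorem of de Jong), and
let `φ` be a lift of the geometric Frobenius of the residue field of `K'`.

Let `r ≥ 1`, and suppose that all characters of the Frobenius in the primitive parts of the terms
`E_1^(i, w)` with `2 ≤ w ≤ r` of the weight spectral sequence of `X'` are good, that is simple, or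
Tate characters in the weight `w = 2` on a stratum satisfying the Tate conjecture for divisors (for
`r = 1` there is no condition). Let `r + 2 ≤ m ≤ n`. On the graded pieces `gr^N_s` of
`H^m_{pst, p}(X)` and of `H^(2 n - m)_{pst, p}(X)` with `|s| = m - r - 2`, the number of eigenvalues of
the linear action of `φ` (with multiplicities) which are not `p ^ (h f)`-Weil numbers of weight
`m + s` (`2 n - m + s`, respectively) is at most `2 ⌊b / 2⌋`, where `b` is the dimension of the part
of the primitive part of `E_1^(i, r + 1)`, `i = m - r - 1`, given by the characters which are not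
good, or whose dual is not good, at one of the places `(i', r + 1)` with `1 ≤ i' ≤ i`. -/
theorem result {P₀ : Type u} [Field P₀] {W : Type} [Group W] {Ω : Type u} [Field Ω] [CharZero Ω]
    [IsAlgClosed Ω] [Algebra P₀ Ω] {p h n : ℕ} (hp : p ≠ 0) {deg : W →* Multiplicative ℤ}
    {σ : RingAut P₀} {τ : W →* RingAut P₀} (X : PstVariety P₀ W)
    {A : ∀ m, W → Module.End P₀ (X.D m)} (hX : X.IsPst p h deg σ τ A)
    (B : PstAlteration Ω X A deg n (p ^ h)) (r : ℕ) (hr : 1 ≤ r) (hG : GoodUpTo B.classes r)
    (m : ℕ) (hm : r + 2 ≤ m) (hmn : m ≤ n) (s : ℤ) (hs : |s| = (m : ℤ) - r - 2) :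
    PstBoth B m s (2 * (goodDefect B.classes (r + 1) (m - r - 1) / 2)) :=
  ⟨pst_atMost Ω hp hX B (bound_cond (C := fun i χ => Good B.classes i (r + 1) χ)
      B.classes hr hG hm hmn (fun _ _ _ _ h => h) s hs).1,
    pst_atMost Ω hp hX B (bound_cond (C := fun i χ => Good B.classes i (r + 1) χ)
      B.classes hr hG hm hmn (fun _ _ _ _ h => h) s hs).2⟩

end Pool.Agent.Results.MP_6451f1_ag.DefectBound
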