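import Pool.Agent.R942.WQ.Main
import Pool.Agent.R942.WP.Cond

/-!
# MP_6451f1_ag: the p-adic monodromy-weight conjecture for the outer graded pieces
-/

set_option autoImplicit false

open Module

universe u

namespace Pool.Agent.Results.MP_6451f1_ag.OuterGradedPieces

open Pool.Agent.Y143 Pool.Agent.R942.WM Pool.Agent.R942.WS Pool.Agent.R942.WD Pool.Agent.R942.WQ
  Pool.Agent.R942.WP

/-- **The `p`-adic monodromy-weight conjecture for the outer graded pieces, for all smooth proper
varieties.** Let `K` be a complete discretely valued field of characteristic zero with finite residue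
field with `p ^ h` elements, and `X` a smooth proper variety over `K`, purely of dimension `n`, with
the spaces `H^m_{pst, p}(X)` over `P₀` and the linear action `A` of the Weil group. Let `B` be an
alteration `X' → X` with a projective strictly semistable model over the ring of integers of a finite
extension of `K` (alterations of this kind exist by the theorem of de Jong).

(1) For all `m ≤ n` and all `s` with `|s| ≥ m - 2`, the conclusion of the conjecture holds for the
graded pieces `gr^N_s` of `H^m_{pst, p}(X)` and of `H^(2 n - m)_{pst, p}(X)`: every eigenvalue of every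
`g` in the Weil group is an algebraic number all of whose conjugates have absolute value
`p ^ ((m + s) v(g) / 2)` (with `2 n - m` in place of `m`, respectively). For instance, the conjecture
holds for all `gr^N_s` of `H^3` and of `H^(2 n - 3)` with `s ≠ 0`.

(2) The same is true for all `s` with `|s| ≥ m - r - 1`, if for all `i ≥ 1` and `2 ≤ w ≤ r` with
`i + w ≤ n` every character of the Frobenius in the primitive part `P^(i, w)` of the term `E_1^(i, w)`
of the weight spectral sequence of `X'` satisfies one of the following conditions: it is simple; it is
a Tate character in the weight `w = 2`, and the stratum satisfies the Tate conjecture for divisors; it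
is contained in a simple sub-isocrystal of `P^(i, w)`; it is contained in a sub-isocrystal of some
slope whose dimension is at most the denominator of the slope. -/
theorem result {P₀ : Type u} [Field P₀] {W : Type} [Group W] {Ω : Type u} [Field Ω] [CharZero Ω]
    [IsAlgClosed Ω] [Algebra P₀ Ω] {p h n : ℕ} (hp : p ≠ 0) (hh : 0 < h)
    {deg : W →* Multiplicative ℤ}
    {σ : RingAut P₀} {τ : W →* RingAut P₀} (X : PstVariety P₀ W)
    {A : ∀ m, W → Module.End P₀ (X.D m)} (hX : X.IsPst p h deg σ τ A)
    (B : PstAlteration Ω X A deg n (p ^ h)) :
    Outer Ω X A (p ^ h) n deg 2 ∧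
    (∀ (E : Crystals B.model.toStrataData p (h * B.f)) (val : Ω → ℚ), IsValuation E.K₀ E.σ val →
      ∀ r : ℕ, CrystalGoodUpTo B.classes E.toCrystalData p (h * B.f) val r →
        Outer Ω X A (p ^ h) n deg (r + 1)) := by
  have : NeZero p := ⟨hp⟩
  refine ⟨pst_rightWeights Ω hp hX B (Pool.Agent.R942.WD.goodUpTo_one B.classes),
    fun E val hval r hr => ?_⟩
  exact pst_rightWeights Ω hp hX B (goodUpTo_of_crystal B.classes E hval (pow_mul p h B.f).symm
    (Nat.mul_pos hh B.extension.pos) hr)

end Pool.Agent.Results.MP_6451f1_ag.OuterGradedPieces
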