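import Pool.Agent.R942.WR.PstDefs
import Pool.Agent.R942.WR.Crystal

/-!
# MP_6451f1_ag: wrong Frobenius eigenvalues and transcendental classes
-/

set_option autoImplicit false

open Module

universe u

namespace Pool.Agent.Results.MP_6451f1_ag.TranscendentalBound

open Pool.Agent.Y143 Pool.Agent.R942.WQ Pool.Agent.R942.WR

/-- **The defect of the `p`-adic monodromy-weight conjecture and the transcendental classes of degree
two.** Let `K` be a complete discretely valued field of characteristic zero with finite residue field
with `p ^ h` elements, and `X` a smooth proper variety over `K`, purely of dimension `n`, with the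
spaces `H^m_{pst, p}(X)` over `P₀` and the linear action `A` of the Weil group. Let `B` be an
alteration `X' → X` with a projective strictly semistable model over the ring of integers of a finite
extension `K'` of `K` with residue degree `f` (alterations of this kind exist by the theorem of de
Jong), let `Y^(m)` be the disjoint union of the intersections of `m` different components of its
special fibre, and let `φ` be a lift of the geometric Frobenius of the residue field of `K'`.

Let `3 ≤ m ≤ n`. On the graded pieces `gr^N_s` of `H^m_{pst, p}(X)` and of `H^(2 n - m)_{pst, p}(X)`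
with `|s| = m - 3`, the number of eigenvalues of the linear action of `φ` (with multiplicities) which
are not `p ^ (h f)`-Weil numbers of weight `m + s` (`2 n - m + s`, respectively) is at most
`2 (b_2 - ρ)`, where `b_2` is the second Betti number of `Y^(m-2)` and `ρ` is the dimension of the
subspace of its second crystalline cohomology group spanned by the classes of divisors. -/
theorem result {P₀ : Type u} [Field P₀] {W : Type} [Group W] {Ω : Type u} [Field Ω] [CharZero Ω]
    [IsAlgClosed Ω] [Algebra P₀ Ω] {p h n : ℕ} (hp : p ≠ 0) {deg : W →* Multiplicative ℤ}
    {σ : RingAut P₀} {τ : W →* RingAut P₀} (X : PstVariety P₀ W)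
    {A : ∀ m, W → Module.End P₀ (X.D m)} (hX : X.IsPst p h deg σ τ A)
    (B : PstAlteration Ω X A deg n (p ^ h)) (m : ℕ) (hm : 3 ≤ m) (hmn : m ≤ n) (s : ℤ)
    (hs : |s| = (m : ℤ) - 3) :
    PstAtMost B m s (2 * transRank B.classes (m - 3)) ∧
      PstAtMost B (2 * n - m) s (2 * transRank B.classes (m - 3)) :=
  ⟨pst_atMost Ω hp hX B (bound_all B.classes hm hmn s hs).1,
    pst_atMost Ω hp hX B (bound_all B.classes hm hmn s hs).2⟩

end Pool.Agent.Results.MP_6451f1_ag.TranscendentalBound
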